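import Pool.Agent.MP_4d4b4c_ag.Limit

/-!
# Exponential growth of the numbers of rational curves in `ℙ³`

The genus-zero Gromov-Witten numbers `N d p = N_{0,d}(p)` of `ℙ³` (`2 d - p` points, `2 p` lines)
are the unique solution of the WDVV equations of `ℙ³` with `N 1 0 = 1`
(`Pool.Agent.MP_4d4b4c_ag.IsCurveCount`); existence and uniqueness are proved here. For all
positive integers `α, β` with `β ≤ 2 α`, the sequence
`(N (α d) (β d) / ((2 α + β) d)!)^(1/d)` converges to a positive real number.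
-/

set_option autoImplicit false

namespace Pool.Agent.Results.MP_4d4b4c_ag.RationalCurveGrowth

open Pool.Agent.MP_4d4b4c_ag

/-- The WDVV equations of `ℙ³` with `N 1 0 = 1` have exactly one solution, and for it the limit
in the question exists and is nonzero for all admissible `α, β`. -/
theorem result :
    ∃ N : ℕ → ℕ → ℚ, IsCurveCount N ∧ (∀ N' : ℕ → ℕ → ℚ, IsCurveCount N' → N' = N) ∧
      ∀ α β : ℕ, 0 < α → 0 < β → β ≤ 2 * α →
        ∃ L : ℝ, 0 < L ∧
          Filter.Tendsto (fun d : ℕ =>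
            ((N (α * d) (β * d) : ℝ) / (((2 * α + β) * d).factorial : ℝ)) ^ ((1 : ℝ) / d))
            Filter.atTop (nhds L) :=
  ⟨count, isCurveCount_count, fun _ h => h.eq_count,
    fun α β hα hβ hβα => main_limit α β hα hβ hβα⟩

/-- Sanity check: the familiar small values, such as `92` conics meeting `8` lines and `80160`
twisted cubics meeting `12` lines. -/
theorem small_values {N : ℕ → ℕ → ℚ} (h : IsCurveCount N) :
    N 1 0 = 1 ∧ N 1 1 = 1 ∧ N 1 2 = 2 ∧ N 2 0 = 0 ∧ N 2 1 = 1 ∧ N 2 2 = 4 ∧ N 2 3 = 18 ∧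
      N 2 4 = 92 ∧ N 3 0 = 1 ∧ N 3 1 = 5 ∧ N 3 6 = 80160 := by
  rw [h.eq_count]
  decide +kernel

end Pool.Agent.Results.MP_4d4b4c_ag.RationalCurveGrowth
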